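import Pool.Agent.Helper43.Fr.Goals

/-!
# Packet ODE of MP_c866d3_nt: `G_REC → G_ODE` and `G_ODE → G_TWOA → G_ODE1`
-/

namespace Pool.Agent.Helper43.Fr.PkOde

open scoped PowerSeries Polynomial

noncomputable section

/-! ## Coefficients of `th`, `thP` -/

theorem coeff_th {R : Type*} [CommRing R] (f : R⟦X⟧) (n : ℕ) :
    PowerSeries.coeff n (th f) = (n : R) * PowerSeries.coeff n f := by
  have h : th f = PowerSeries.X * PowerSeries.derivative R f := rfl
  rw [h]
  cases n with
  | zero => simp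
  | succ n =>
    rw [PowerSeries.coeff_succ_X_mul, PowerSeries.coeff_derivative]
    push_cast
    ring

theorem coeff_thP {R : Type*} [CommRing R] (f : R[X]) (n : ℕ) :
    (thP f).coeff n = (n : R) * f.coeff n := by
  have h : thP f = Polynomial.X * Polynomial.derivative f := rfl
  rw [h]
  cases n with
  | zero => simp
  | succ n =>
    rw [Polynomial.coeff_X_mul, Polynomial.coeff_derivative]
    push_cast
    ring

theorem coe_thP {R : Type*} [CommRing R] (f : R[X]) :
    ((thP f : R[X]) : R⟦X⟧) = th (f : R⟦X⟧) := by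
  ext n
  rw [Polynomial.coeff_coe, coeff_thP, coeff_th, Polynomial.coeff_coe]

theorem map_th {R S : Type*} [CommRing R] [CommRing S] (φ : R →+* S) (f : R⟦X⟧) :
    PowerSeries.map φ (th f) = th (PowerSeries.map φ f) := by
  ext n
  rw [PowerSeries.coeff_map, coeff_th, coeff_th, PowerSeries.coeff_map, map_mul, map_natCast]

theorem th_X {R : Type*} [CommRing R] : th (PowerSeries.X : R⟦X⟧) = PowerSeries.X := by
  ext n
  rw [coeff_th, PowerSeries.coeff_X]
  split_ifs with h
  · subst h; simp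
  · simp

theorem th_natCast {R : Type*} [CommRing R] (n : ℕ) : th ((n : ℕ) : R⟦X⟧) = 0 := by
  exact Derivation.map_natCast _ _

theorem th_ofNat {R : Type*} [CommRing R] (n : ℕ) [n.AtLeastTwo] :
    th (ofNat(n) : R⟦X⟧) = 0 := by
  have := th_natCast (R := R) (OfNat.ofNat n)
  rwa [Nat.cast_ofNat] at this

theorem th_one {R : Type*} [CommRing R] : th (1 : R⟦X⟧) = 0 := Derivation.map_one_eq_zero _

theorem th_mul {R : Type*} [CommRing R] (f g : R⟦X⟧) : th (f * g) = f * th g + g * th f := by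
  rw [Derivation.leibniz]
  simp [smul_eq_mul]

theorem th_sq {R : Type*} [CommRing R] (f : R⟦X⟧) : th (f ^ 2) = 2 * f * th f := by
  rw [sq, th_mul]; ring

/-- The third order equation over `ℤ`. -/
theorem lop_FF (hR : G_REC) :
    DD (PowerSeries.X : ℤ⟦X⟧) * th (th (th (FF ℤ)))
      - (42 * PowerSeries.X + 384 * PowerSeries.X ^ 2) * th (th (FF ℤ))
      - (22 * PowerSeries.X + 352 * PowerSeries.X ^ 2) * th (FF ℤ)
      - (4 * PowerSeries.X + 96 * PowerSeries.X ^ 2) * FF ℤ = 0 := by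
  have hF : ∀ n, PowerSeries.coeff n (FF ℤ) = (aa n : ℤ) := fun n => by
    rw [FF, PowerSeries.coeff_mk]
  have key : ∀ (a b c : ℤ) (f : ℤ⟦X⟧), (PowerSeries.C a + PowerSeries.C b * PowerSeries.X
      + PowerSeries.C c * PowerSeries.X ^ 2) * f
      = PowerSeries.C a * f + PowerSeries.C b * (PowerSeries.X * f)
        + PowerSeries.C c * (PowerSeries.X * (PowerSeries.X * f)) := by
    intro a b c f; ring
  have e1 : DD (PowerSeries.X : ℤ⟦X⟧) = PowerSeries.C 1 + PowerSeries.C (-28) * PowerSeries.X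
      + PowerSeries.C (-128) * PowerSeries.X ^ 2 := by
    simp only [DD, map_one, map_neg, map_ofNat]; ring
  have e2 : (42 * PowerSeries.X + 384 * PowerSeries.X ^ 2 : ℤ⟦X⟧)
      = PowerSeries.C 0 + PowerSeries.C 42 * PowerSeries.X
      + PowerSeries.C 384 * PowerSeries.X ^ 2 := by
    simp only [map_zero, map_ofNat]; ring
  have e3 : (22 * PowerSeries.X + 352 * PowerSeries.X ^ 2 : ℤ⟦X⟧)
      = PowerSeries.C 0 + PowerSeries.C 22 * PowerSeries.X
      + PowerSeries.C 352 * PowerSeries.X ^ 2 := by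
    simp only [map_zero, map_ofNat]; ring
  have e4 : (4 * PowerSeries.X + 96 * PowerSeries.X ^ 2 : ℤ⟦X⟧)
      = PowerSeries.C 0 + PowerSeries.C 4 * PowerSeries.X
      + PowerSeries.C 96 * PowerSeries.X ^ 2 := by
    simp only [map_zero, map_ofNat]; ring
  rw [e1, e2, e3, e4, key, key, key, key]
  ext n
  match n with
  | 0 =>
    simp only [map_sub, map_add, PowerSeries.coeff_C_mul, PowerSeries.coeff_zero_X_mul,
      coeff_th, hF, map_zero]
    simp
  | 1 =>
    have h1 : (aa 1 : ℤ) = 4 := by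
      norm_num [aa, franel, Finset.sum_range_succ, Nat.choose]
    have h0 : (aa 0 : ℤ) = 1 := by
      norm_num [aa, franel, Finset.sum_range_succ, Nat.choose]
    have hc1 : ∀ f : ℤ⟦X⟧, PowerSeries.coeff 1 (PowerSeries.X * f) = PowerSeries.coeff 0 f :=
      fun f => PowerSeries.coeff_succ_X_mul 0 f
    simp only [map_sub, map_add, PowerSeries.coeff_C_mul, PowerSeries.coeff_zero_X_mul, hc1,
      coeff_th, hF, map_zero, h1, h0]
    norm_num
  | (m + 2) =>
    have hc2 : ∀ f : ℤ⟦X⟧, PowerSeries.coeff (m + 2) (PowerSeries.X * f)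
        = PowerSeries.coeff (m + 1) f := fun f => PowerSeries.coeff_succ_X_mul (m + 1) f
    have hc1 : ∀ f : ℤ⟦X⟧, PowerSeries.coeff (m + 1) (PowerSeries.X * f)
        = PowerSeries.coeff m f := fun f => PowerSeries.coeff_succ_X_mul m f
    simp only [map_sub, map_add, PowerSeries.coeff_C_mul, hc2, hc1,
      coeff_th, hF, map_zero, zero_mul]
    have h := hR m
    simp only [q1, q2] at h
    push_cast
    linear_combination h

theorem ode_int (hR : G_REC) :
    DD (PowerSeries.X : ℤ⟦X⟧) * (2 * FF ℤ * th (th (FF ℤ)) - (th (FF ℤ)) ^ 2)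
      + th (DD (PowerSeries.X : ℤ⟦X⟧)) * FF ℤ * th (FF ℤ)
      - 4 * (2 * PowerSeries.X + 24 * PowerSeries.X ^ 2) * (FF ℤ) ^ 2 = 0 := by
  have hD1 : th (DD (PowerSeries.X : ℤ⟦X⟧)) = -28 * PowerSeries.X - 256 * PowerSeries.X ^ 2 := by
    simp only [DD, map_sub, th_mul, th_sq, th_X, th_ofNat, th_one]; ring
  have hD2 : th (th (DD (PowerSeries.X : ℤ⟦X⟧)))
      = -28 * PowerSeries.X - 512 * PowerSeries.X ^ 2 := by
    rw [hD1]
    simp only [map_sub, map_neg, th_mul, th_sq, th_X, th_ofNat]; ring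
  set E := DD (PowerSeries.X : ℤ⟦X⟧) * (2 * FF ℤ * th (th (FF ℤ)) - (th (FF ℤ)) ^ 2)
      + th (DD (PowerSeries.X : ℤ⟦X⟧)) * FF ℤ * th (FF ℤ)
      - 4 * (2 * PowerSeries.X + 24 * PowerSeries.X ^ 2) * (FF ℤ) ^ 2 with hE
  have hL := lop_FF hR
  have hth : th E = 0 := by
    have h1 : th E = 2 * FF ℤ * (DD (PowerSeries.X : ℤ⟦X⟧) * th (th (th (FF ℤ)))
      - (42 * PowerSeries.X + 384 * PowerSeries.X ^ 2) * th (th (FF ℤ))
      - (22 * PowerSeries.X + 352 * PowerSeries.X ^ 2) * th (FF ℤ)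
      - (4 * PowerSeries.X + 96 * PowerSeries.X ^ 2) * FF ℤ) := by
      rw [hE]
      simp only [map_sub, map_add, th_mul, th_sq, th_ofNat, th_X]
      rw [hD2, hD1]
      ring
    rw [h1, hL, mul_zero]
  ext n
  by_cases hn : n = 0
  · subst hn
    have hc : ∀ f : ℤ⟦X⟧, PowerSeries.coeff 0 (th f) = 0 := fun f => by
      rw [coeff_th]; simp
    rw [hE]
    simp only [map_sub, map_add, PowerSeries.coeff_zero_eq_constantCoeff, map_mul, map_pow,
      PowerSeries.constantCoeff_X, map_zero]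
    simp only [PowerSeries.coeff_zero_eq_constantCoeff] at hc
    simp only [hc]
    ring
  · have := congrArg (PowerSeries.coeff n) hth
    rw [coeff_th, map_zero] at this
    have hn' : (n : ℤ) ≠ 0 := by exact_mod_cast hn
    rw [map_zero]
    exact (mul_eq_zero.mp this).resolve_left hn'

theorem ode (hR : G_REC) : G_ODE := by
  intro R _
  have h := congrArg (PowerSeries.map (Int.castRingHom R)) (ode_int hR)
  have hF : PowerSeries.map (Int.castRingHom R) (FF ℤ) = FF R := by
    ext n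
    rw [PowerSeries.coeff_map, FF, FF, PowerSeries.coeff_mk, PowerSeries.coeff_mk]
    simp
  have hD : PowerSeries.map (Int.castRingHom R) (DD (PowerSeries.X : ℤ⟦X⟧))
      = DD (PowerSeries.X : R⟦X⟧) := by
    simp only [DD, map_sub, map_mul, map_pow, map_one, map_ofNat, PowerSeries.map_X]
  simp only [map_sub, map_add, map_mul, map_pow, map_th, hF, hD, map_ofNat, PowerSeries.map_X,
    map_zero] at h
  exact h

/-! ## The truncation -/

theorem lucas (hT : G_TWOA) (p : ℕ) [Fact p.Prime] (hp : 3 < p) (i : ℕ) (hi : i < p) (j : ℕ) :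
    (aa (i + p * j) : ZMod p) = (aa j : ZMod p) * (aa i : ZMod p) := by
  obtain ⟨B, hB⟩ := hT p hp
  obtain ⟨c, hc⟩ := hB.two i hi j
  have h := congrArg (PadicInt.toZMod (p := p)) hc
  simp only [map_sub, map_mul, map_pow, map_natCast, CharP.cast_eq_zero, zero_mul, sub_zero,
    ne_eq, OfNat.ofNat_ne_zero, not_false_eq_true, zero_pow] at h
  exact sub_eq_zero.mp h

/-- `F(X^p)` -/
def Gp (p : ℕ) [Fact p.Prime] : (ZMod p)⟦X⟧ :=
  PowerSeries.mk fun n => if p ∣ n then (aa (n / p) : ZMod p) else 0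

theorem F_eq (hT : G_TWOA) (p : ℕ) [Fact p.Prime] (hp : 3 < p) :
    FF (ZMod p) = ((F1 (ZMod p) p : (ZMod p)[X]) : (ZMod p)⟦X⟧) * Gp p := by
  have hp0 : 0 < p := by omega
  ext n
  rw [FF, PowerSeries.coeff_mk, PowerSeries.coeff_mul]
  rw [Finset.sum_eq_single (n % p, p * (n / p))]
  · rw [Polynomial.coeff_coe, Gp, PowerSeries.coeff_mk, if_pos (dvd_mul_right _ _)]
    have h1 : (F1 (ZMod p) p).coeff (n % p) = (aa (n % p) : ZMod p) := by
      rw [F1, Polynomial.finsetSum_coeff]
      rw [Finset.sum_eq_single (n % p)]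
      · rw [Polynomial.coeff_monomial_same]
      · intro b _ hb
        exact Polynomial.coeff_monomial_of_ne _ (Ne.symm hb)
      · intro h
        exact absurd (Finset.mem_range.mpr (Nat.mod_lt n hp0)) h
    rw [h1]
    simp only
    rw [Nat.mul_div_cancel_left _ hp0, mul_comm]
    have h2 := lucas hT p hp (n % p) (Nat.mod_lt n hp0) (n / p)
    rw [Nat.mod_add_div] at h2
    exact h2
  · rintro ⟨a, b⟩ hab hne
    rw [Finset.HasAntidiagonal.mem_antidiagonal] at hab
    simp only at hab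
    rw [Polynomial.coeff_coe, Gp, PowerSeries.coeff_mk]
    by_cases hb : p ∣ b
    · obtain ⟨m, rfl⟩ := hb
      have ha : ¬ a < p := by
        intro ha
        apply hne
        have h1 : n % p = a := by
          rw [← hab, Nat.add_mul_mod_self_left, Nat.mod_eq_of_lt ha]
        have h2 : n / p = m := by
          rw [← hab, Nat.add_mul_div_left _ _ hp0, Nat.div_eq_of_lt ha, zero_add]
        rw [h1, h2]
      have h1 : (F1 (ZMod p) p).coeff a = 0 := by
        rw [F1, Polynomial.finsetSum_coeff]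
        apply Finset.sum_eq_zero
        intro b hb
        apply Polynomial.coeff_monomial_of_ne
        have := Finset.mem_range.mp hb
        omega
      rw [h1, zero_mul]
    · rw [if_neg hb, mul_zero]
  · intro h
    exact absurd (Finset.HasAntidiagonal.mem_antidiagonal.mpr (Nat.mod_add_div n p)) h

theorem th_Gp (p : ℕ) [Fact p.Prime] : th (Gp p) = 0 := by
  ext n
  rw [coeff_th, Gp, PowerSeries.coeff_mk, map_zero]
  split_ifs with h
  · rw [(ZMod.natCast_eq_zero_iff n p).mpr h, zero_mul]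
  · rw [mul_zero]

theorem isUnit_Gp (p : ℕ) [Fact p.Prime] : IsUnit (Gp p) := by
  rw [PowerSeries.isUnit_iff_constantCoeff]
  rw [← PowerSeries.coeff_zero_eq_constantCoeff_apply, Gp, PowerSeries.coeff_mk,
    if_pos (dvd_zero p)]
  have h0 : aa (0 / p) = 1 := by
    rw [Nat.zero_div]
    norm_num [aa, franel, Finset.sum_range_succ]
  rw [h0]
  simp

theorem ode1 (hO : G_ODE) (hT : G_TWOA) : G_ODE1 := by
  intro p _ hp
  apply Polynomial.coe_injective (ZMod p)
  have hc : ∀ f : (ZMod p)[X], ((thP f : (ZMod p)[X]) : (ZMod p)⟦X⟧) = th (f : (ZMod p)⟦X⟧) :=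
    fun f => coe_thP f
  have h := hO (ZMod p)
  have hF := F_eq hT p hp
  have hG := th_Gp p
  set g := Gp p with hg
  set f : (ZMod p)⟦X⟧ := ((F1 (ZMod p) p : (ZMod p)[X]) : (ZMod p)⟦X⟧) with hf
  have h1 : th (FF (ZMod p)) = g * th f := by
    rw [hF, th_mul, hG, mul_zero, zero_add]
  have h2 : th (th (FF (ZMod p))) = g * th (th f) := by
    rw [h1, th_mul, hG, mul_zero, add_zero]
  rw [h2, h1, hF] at h
  have hofNat : ∀ (m : ℕ) [m.AtLeastTwo], ((OfNat.ofNat m : (ZMod p)[X]) : (ZMod p)⟦X⟧)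
      = (OfNat.ofNat m : (ZMod p)⟦X⟧) := fun m _ =>
    map_ofNat (Polynomial.coeToPowerSeries.ringHom (R := ZMod p)) m
  have hD : ((DD (Polynomial.X : (ZMod p)[X]) : (ZMod p)[X]) : (ZMod p)⟦X⟧)
      = DD (PowerSeries.X : (ZMod p)⟦X⟧) := by
    simp only [DD, Polynomial.coe_sub, Polynomial.coe_mul, Polynomial.coe_pow, Polynomial.coe_one,
      Polynomial.coe_X, hofNat]
  have hm : g ^ 2 * (DD (PowerSeries.X : (ZMod p)⟦X⟧) * (2 * f * th (th f) - (th f) ^ 2)
      + th (DD (PowerSeries.X : (ZMod p)⟦X⟧)) * f * th f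
      - 4 * (2 * PowerSeries.X + 24 * PowerSeries.X ^ 2) * f ^ 2) = 0 := by
    linear_combination h
  have hu : IsUnit (g ^ 2) := (isUnit_Gp p).pow 2
  have hz := (hu.mul_right_eq_zero).mp hm
  rw [Polynomial.coe_zero]
  simp only [Polynomial.coe_sub, Polynomial.coe_add, Polynomial.coe_mul, Polynomial.coe_pow,
    Polynomial.coe_X, hc, hD, hofNat]
  exact hz

end

end Pool.Agent.Helper43.Fr.PkOde
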